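import Pool.Agent.H66.AV.TF

/-!
Row OVL of the board avh_modules (MP_0f8dca_lc): oracles with tables.
-/

set_option autoImplicit false

namespace Pool.Agent.H79.AVH

open Finset Pool.Agent.H6.NB Pool.Agent.H70.OQ Pool.Agent.H70.EH Pool.Agent.H70.EI Pool.Agent.H78.XQ
open Pool.Agent.H66.IP (Local ins sp dm Good IsZ scl mBp m0p)
open Pool.Agent.H66.IQ
open Pool.Agent.H75.OM (BPos)
open Pool.Agent.H66.AV

/-- The value of the oracle at the position of a block does not depend on the default. -/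
theorem isz_pos {V : ℕ → ATM} {E : Finset (ℕ × List Bool)}
    {O : (∀ p : {a // a ∈ E}, CP V p.1) → (List Bool → Bool) → List Bool → Bool}
    (hO : IsZ V E O) {p : ℕ × List Bool} (hp : p ∈ E) {w : List Bool} (hw : BPos V p w)
    (P : ∀ p : {a // a ∈ E}, CP V p.1) (g g' : List Bool → Bool) : O P g w = O P g' w := by
  rcases hw with ⟨u, v, b, rfl⟩ | ⟨z, rfl⟩
  · have h1 := congrFun (congrFun (hO.blk P g p hp) u) (b, v)
    have h2 := congrFun (congrFun (hO.blk P g' p hp) u) (b, v)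
    exact h1.trans h2.symm
  · have h1 := congrFun (hO.cor P g p hp) z
    have h2 := congrFun (hO.cor P g' p hp) z
    exact h1.trans h2.symm

/-- The value of `ovl` outside the tables. -/
theorem ovl_out {n k : ℕ} (g : List Bool → Bool) (T : (Fin n → Bool) → Nn n k → Bool)
    {w : List Bool} (hw : ∀ x q, w ≠ astr n k x q) : ovl n k g T w = g w := by
  unfold ovl
  rw [dif_neg]
  rintro ⟨y, hy⟩
  exact hw y.1 y.2 hy

/-- The value of `ovl` on the tables. -/
theorem ovl_in (hinj : ∀ (n k : ℕ) (x x' : Fin n → Bool) (q q' : Nn n k),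
      astr n k x q = astr n k x' q' → x = x' ∧ q = q')
    {n k : ℕ} (g : List Bool → Bool) (T : (Fin n → Bool) → Nn n k → Bool) (x : Fin n → Bool)
    (q : Nn n k) : ovl n k g T (astr n k x q) = T x q := by
  have h : ∃ y : (Fin n → Bool) × Nn n k, astr n k x q = astr n k y.1 y.2 := ⟨(x, q), rfl⟩
  unfold ovl
  rw [dif_pos h]
  obtain ⟨h1, h2⟩ := hinj n k _ _ _ _ h.choose_spec
  rw [← h1, ← h2]

theorem lit_ovl (n k : ℕ) (g : List Bool → Bool) :
    LitT (n := n) (k := k) (fun T => ovl n k g T) := by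
  intro w
  by_cases h : ∃ y : (Fin n → Bool) × Nn n k, w = astr n k y.1 y.2
  · right
    refine ⟨h.choose.1, h.choose.2, fun T => ?_⟩
    show ovl n k g T w = _
    unfold ovl
    rw [dif_pos h]
  · left
    refine ⟨g w, fun T => ?_⟩
    show ovl n k g T w = _
    unfold ovl
    rw [dif_neg h]

theorem litT_isz {V : ℕ → ATM} {E : Finset (ℕ × List Bool)}
    {O : (∀ p : {a // a ∈ E}, CP V p.1) → (List Bool → Bool) → List Bool → Bool}
    (hO : IsZ V E O) (P : ∀ p : {a // a ∈ E}, CP V p.1) {n k : ℕ}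
    (Q : ((Fin n → Bool) → Nn n k → Bool) → List Bool → Bool) (hQ : LitT Q) :
    LitT (n := n) (k := k) fun T => O P (Q T) := by
  intro w
  by_cases h : ∃ p ∈ E, BPos V p w
  · obtain ⟨p, hp, hw⟩ := h
    left
    exact ⟨O P (fun _ => false) w, fun T => isz_pos hO hp hw P _ _⟩
  · have hn : ∀ p ∈ E, ¬ BPos V p w := fun p hp hw => h ⟨p, hp, hw⟩
    rcases hQ w with ⟨b, hb⟩ | ⟨x, q, hv⟩
    · exact Or.inl ⟨b, fun T => (hO.out w hn P _).trans (hb T)⟩
    · exact Or.inr ⟨x, q, fun T => (hO.out w hn P _).trans (hv T)⟩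

/-- OVL. -/
theorem pf_OVL (hAST : Pool.Agent.H66.AV.T_AST) (hSPF : Pool.Agent.H66.IP.T_SPF)
    (_hIZU : Pool.Agent.H66.IP.T_IZU) : Pool.Agent.H66.AV.T_OVL := by
  classical
  obtain ⟨_, a2, _⟩ := hAST
  intro n k g
  refine ⟨fun T x q => ovl_in a2 g T x q, fun T w hw => ovl_out g T hw, ?_, ?_⟩
  · intro T T'
    funext w
    by_cases h : ∃ y : (Fin n → Bool) × Nn n k, w = astr n k y.1 y.2
    · obtain ⟨y, rfl⟩ := h
      rw [ovl_in a2, ovl_in a2]
    · have hw : ∀ x q, w ≠ astr n k x q := fun x q hx => h ⟨(x, q), hx⟩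
      rw [ovl_out _ _ hw, ovl_out _ _ hw, ovl_out _ _ hw]
  · intro V E O hO P
    refine ⟨litT_isz hO P _ (lit_ovl n k g), fun T x q => ?_⟩
    obtain ⟨_, _, _, s4, _, _⟩ := hSPF V
    rw [hO.out, ovl_in a2]
    intro p _ hb
    obtain ⟨w', hw'⟩ := (s4 p _ hb).2
    simp [astr] at hw'

end Pool.Agent.H79.AVH
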